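import Mathlib

set_option autoImplicit false

namespace Pool.Agent.Helper69.C18.NV

open MvPolynomial

/-- The matrices of the net. -/
noncomputable def AM : Fin 3 → Matrix (Fin 3) (Fin 3) ℂ :=
  ![!![0, 1, 0; 1, 0, 0; 0, 0, 2], !![0, 0, 0; 0, 1, 0; 1, 0, 0], !![0, 0, -1; 0, 0, 2; 1, 0, 0]]

lemma det_eq : (∑ i, (X i : MvPolynomial (Fin 3) ℂ) •
      (AM i).map (C : ℂ → MvPolynomial (Fin 3) ℂ)).det
    = -C 2 * X 0 ^ 3 + C 2 * (X 2 * (X 1 + X 2)) * X 0 + X 1 * X 2 * (X 1 + X 2) := by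
  rw [Matrix.det_fin_three]
  simp [AM, Fin.sum_univ_three]
  ring

/-- Restriction to the line `X 1 = - X 0`. -/
noncomputable def rl : MvPolynomial (Fin 2) ℂ →+* Polynomial ℂ :=
  (aeval (R := ℂ) ![Polynomial.X, -Polynomial.X]).toRingHom

lemma rlX0 : rl (X 0) = Polynomial.X := by simp [rl]
lemma rlX1 : rl (X 1) = -Polynomial.X := by simp [rl]

noncomputable def qq : Polynomial (MvPolynomial (Fin 2) ℂ) :=
  Polynomial.C (-C 2) * Polynomial.X ^ 3 + Polynomial.C 0 * Polynomial.X ^ 2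
    + Polynomial.C (C 2 * (X 1 * (X 0 + X 1))) * Polynomial.X
    + Polynomial.C (X 0 * X 1 * (X 0 + X 1))

section cf

variable {R : Type} [CommRing R] (a b c d : R)

lemma cf0 : (Polynomial.C a * Polynomial.X ^ 3 + Polynomial.C b * Polynomial.X ^ 2
    + Polynomial.C c * Polynomial.X + Polynomial.C d).coeff 0 = d := by simp

lemma cf1 : (Polynomial.C a * Polynomial.X ^ 3 + Polynomial.C b * Polynomial.X ^ 2
    + Polynomial.C c * Polynomial.X + Polynomial.C d).coeff 1 = c := by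
  simp [Polynomial.coeff_X, Polynomial.coeff_C, Polynomial.coeff_X_pow]

lemma cf2 : (Polynomial.C a * Polynomial.X ^ 3 + Polynomial.C b * Polynomial.X ^ 2
    + Polynomial.C c * Polynomial.X + Polynomial.C d).coeff 2 = b := by
  simp [Polynomial.coeff_X, Polynomial.coeff_C, Polynomial.coeff_X_pow]

lemma cf3 : (Polynomial.C a * Polynomial.X ^ 3 + Polynomial.C b * Polynomial.X ^ 2
    + Polynomial.C c * Polynomial.X + Polynomial.C d).coeff 3 = a := by
  simp [Polynomial.coeff_X, Polynomial.coeff_C, Polynomial.coeff_X_pow]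

end cf

lemma m2 : (-C 2 : MvPolynomial (Fin 2) ℂ) ≠ 0 := by
  rw [neg_ne_zero]
  exact (C_ne_zero).2 (by norm_num)

lemma qq_irr : Irreducible qq := by
  have hdeg : qq.degree = 3 := Polynomial.degree_cubic m2
  have hlead : qq.leadingCoeff = -C 2 := Polynomial.leadingCoeff_cubic m2
  have hP : (RingHom.ker rl).IsPrime := RingHom.ker_isPrime rl
  refine Polynomial.irreducible_of_eisenstein_criterion hP ?_ ?_ ?_ ?_ ?_
  · rw [hlead, RingHom.mem_ker]
    simp [rl]
  · intro n hn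
    rw [hdeg] at hn
    have hn3 : n < 3 := by exact_mod_cast hn
    rw [RingHom.mem_ker]
    interval_cases n
    · rw [qq, cf0]
      simp [rlX0, rlX1]
    · rw [qq, cf1]
      simp [rlX0, rlX1]
    · rw [qq, cf2]
      simp
  · rw [hdeg]
    norm_num
  · intro h
    have key : ∀ f ∈ (RingHom.ker rl) ^ 2, rl (pderiv 0 f) = 0 := by
      intro f hf
      rw [pow_two] at hf
      refine Submodule.mul_induction_on hf ?_ ?_
      · intro a ha b hb
        rw [RingHom.mem_ker] at ha hb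
        rw [Derivation.leibniz, map_add, smul_eq_mul, smul_eq_mul, map_mul, map_mul, ha, hb]
        ring
      · intro a b ha hb
        rw [map_add, map_add, ha, hb, add_zero]
    have h1 := key _ h
    rw [qq, cf0] at h1
    simp [pderiv_X, Derivation.leibniz, rlX0, rlX1] at h1
  · intro r hr
    have h3 : qq.coeff 3 = -C 2 := by
      rw [qq, cf3]
    have h4 : r ∣ qq.coeff 3 := by
      obtain ⟨g, hg⟩ := hr
      exact ⟨g.coeff 3, by rw [hg, Polynomial.coeff_C_mul]⟩
    rw [h3] at h4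
    refine isUnit_of_dvd_unit h4 ?_
    rw [IsUnit.neg_iff]
    exact (IsUnit.mk0 (2 : ℂ) two_ne_zero).map C

lemma AM_irr : Irreducible (∑ i, (X i : MvPolynomial (Fin 3) ℂ) •
      (AM i).map (C : ℂ → MvPolynomial (Fin 3) ℂ)).det := by
  rw [det_eq, ← MulEquiv.irreducible_iff (finSuccEquiv ℂ 2)]
  have : finSuccEquiv ℂ 2
      (-C 2 * X 0 ^ 3 + C 2 * (X 2 * (X 1 + X 2)) * X 0 + X 1 * X 2 * (X 1 + X 2)) = qq := by
    have e1 : finSuccEquiv ℂ 2 (X 1) = Polynomial.C (X 0) := finSuccEquiv_X_succ (j := 0)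
    have e2 : finSuccEquiv ℂ 2 (X 2) = Polynomial.C (X 1) := finSuccEquiv_X_succ (j := 1)
    have e3 : ∀ a : ℂ, finSuccEquiv ℂ 2 (C a) = Polynomial.C (C a) := by
      intro a
      rw [finSuccEquiv_apply]
      simp
    simp only [map_add, map_mul, map_neg, map_pow, finSuccEquiv_X_zero, e1, e2, e3, qq,
      Polynomial.C_0]
    ring
  rw [this]
  exact qq_irr

end Pool.Agent.Helper69.C18.NV
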