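import Pool.Agent.Helper69.C18.NV.Core3

set_option autoImplicit false

namespace Pool.Agent.Helper69.C18.NV

open MvPolynomial

noncomputable abbrev TX : Fin 3 → MvPolynomial (Fin 4) ℂ := tt X

noncomputable abbrev c2 : Fin 4 → ℂ := ![-2, 0, 1, 1]

lemma ev0 : eval c2 (TX 0) = -12 := by
  simp [TX, tt, cr, Pv, Cv, c2, map_ofNat]
  norm_num

lemma ev1 : eval c2 (TX 1) = -6 := by
  simp [TX, tt, cr, Pv, Cv, c2, map_ofNat]
  norm_num

lemma ev2 : eval c2 (TX 2) = -4 := by
  simp [TX, tt, cr, Pv, Cv, c2, map_ofNat]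
  norm_num

lemma pd2 : pderiv 0 (2 : MvPolynomial (Fin 4) ℂ) = 0 := by
  rw [← map_ofNat (C : ℂ →+* MvPolynomial (Fin 4) ℂ) 2, pderiv_C]

lemma pd3 : pderiv 0 (3 : MvPolynomial (Fin 4) ℂ) = 0 := by
  rw [← map_ofNat (C : ℂ →+* MvPolynomial (Fin 4) ℂ) 3, pderiv_C]

lemma dv0 : eval c2 (pderiv 0 (TX 0)) = 10 := by
  simp [TX, tt, cr, Pv, Cv, c2, map_ofNat, pderiv_X, pd2, pd3]
  norm_num

lemma dv1 : eval c2 (pderiv 0 (TX 1)) = 9 := by
  simp [TX, tt, cr, Pv, Cv, c2, map_ofNat, pderiv_X, pd2, pd3]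
  norm_num

lemma dv2 : eval c2 (pderiv 0 (TX 2)) = 2 := by
  simp [TX, tt, cr, Pv, Cv, c2, map_ofNat, pderiv_X, pd2, pd3]
  norm_num

lemma no_root (η : MvPolynomial (Fin 4) ℂ)
    (h : η ^ 3 + TX 0 * η ^ 2 + 2 * TX 1 * TX 2 * η + TX 2 ^ 3 = 0) : False := by
  have h1 := congrArg (eval c2) h
  have h2 := congrArg (fun p => eval c2 (pderiv 0 p)) h
  simp only [map_add, map_mul, map_pow, ev0, ev1, ev2, map_zero, map_ofNat, Derivation.leibniz,
    Derivation.leibniz_pow, pd2, dv0, dv1, dv2, smul_eq_mul, nsmul_eq_mul, map_natCast] at h1 h2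
  have h3 : eval c2 η = 4 := by
    have : (eval c2 η - 4) ^ 3 = 0 := by linear_combination h1
    have := pow_eq_zero_iff (by norm_num) |>.1 this
    linear_combination this
  rw [h3] at h2
  norm_num at h2
  have : (128 : ℂ) = 0 := by linear_combination -h2
  norm_num at this

theorem N2 (x y : K4)
    (h : tt gen 2 * x ^ 3 + tt gen 0 * x ^ 2 * y + 2 * tt gen 1 * x * y ^ 2 + tt gen 2 * y ^ 3 = 0) :
    x = 0 ∧ y = 0 := by
  have ht : tt gen 2 ≠ 0 := by
    rw [gen_eq, ← f_tti]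
    refine ne_of_eval _ c2 ?_
    rw [ev2]
    norm_num
  by_cases hy : y = 0
  · refine ⟨?_, hy⟩
    rw [hy] at h
    have : tt gen 2 * x ^ 3 = 0 := by linear_combination h
    exact pow_eq_zero_iff (by norm_num) |>.1 ((mul_eq_zero.1 this).resolve_left ht)
  · exfalso
    have hint : IsIntegral (MvPolynomial (Fin 4) ℂ) (tt gen 2 * x / y) := by
      refine ⟨Polynomial.X ^ 3 + Polynomial.C (TX 0) * Polynomial.X ^ 2
        + Polynomial.C (2 * TX 1 * TX 2) * Polynomial.X + Polynomial.C (TX 2 ^ 3), by monicity!, ?_⟩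
      have e : ∀ i, algebraMap (MvPolynomial (Fin 4) ℂ) K4 (TX i) = tt gen i := by
        intro i
        rw [f_tti]
        rfl
      simp only [Polynomial.eval₂_add, Polynomial.eval₂_mul, Polynomial.eval₂_pow,
        Polynomial.eval₂_X, Polynomial.eval₂_C, Polynomial.eval₂_ofNat, map_mul, map_pow,
        map_ofNat, e]
      field_simp
      linear_combination (tt gen 2) ^ 2 * h
    obtain ⟨η, hη⟩ := IsIntegrallyClosed.algebraMap_eq_of_integral hint
    refine no_root η ?_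
    apply IsFractionRing.injective (MvPolynomial (Fin 4) ℂ) K4
    have e : ∀ i, algebraMap (MvPolynomial (Fin 4) ℂ) K4 (TX i) = tt gen i := by
      intro i
      rw [f_tti]
      rfl
    simp only [map_add, map_mul, map_pow, map_ofNat, e, hη, map_zero]
    field_simp
    linear_combination (tt gen 2) ^ 2 * h

end Pool.Agent.Helper69.C18.NV
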