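import Mathlib

set_option autoImplicit false

namespace Pool.Agent.Helper69.C18.NV

theorem sm_x1 {k : Type} [Field k] [CharZero k] {x0 x1 y0 y1 y2 : k}
    (h0 : -6*x0*y2 - x1^2 + 6*x1*y2 = 0)
    (h1 : -x0*x1 + 3*x0*y2 + 3*x1^2 - 2*x1*y1 = 0)
    (h2 : x0^2 - 2*x0*x1 + 3*x0*y0 - 2*x1*y0 = 0)
    (h3 : -2*y0*y2 + y1^2 - 2*y1*y2 = 0)
    (h4 : -x1^2 + y0*y1 - y0*y2 + y2^2 = 0)
    : x1 = 0 := by
  have h : (7021910 : k) * x1 ^ 4 = 0 := by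
    linear_combination (5561856*x0*x1 - 5711526*x0*y0 - 3697092*x0*y1 + 1779780*x0*y2 - 8777549*x1^2 + 25417206*x1*y0 + 9397746*x1*y1 - 3934506*x1*y2 - 19326132*y0^2 - 9426177*y0*y1 - 7577649*y0*y2 + 737172*y1^2 - 6107382*y1*y2 + 7707393*y2^2) * h0 + (-2760876*x0*y0 - 737172*x0*y1 - 5561856*x1^2 + 2950650*x1*y0 + 9534582*x1*y1 + 828810*x1*y2 - 8282628*y0^2 + 3310236*y0*y1 - 25833978*y0*y2 + 1474344*y1^2 - 10023210*y1*y2 + 15414786*y2^2) * h1 + (-2760876*x1*y0 - 737172*x1*y1 + 33371136*x1*y2 - 25986528*y0*y2 - 19971036*y1*y2 + 10678680*y2^2) * h2 + (6574662*x0*y0 + 15383304*x1^2 - 23709240*x1*y0 + 2948688*x1*y1 - 18572076*x1*y2) * h3 + (-6574662*x0*y1 - 14929929*x1^2 - 16565256*x1*y0 + 30329712*x1*y1 - 46244358*x1*y2) * h4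
  have h2 : x1 ^ 4 = 0 := by
    rcases mul_eq_zero.1 h with h | h
    · exact absurd h (by norm_num)
    · exact h
  exact pow_eq_zero_iff (by norm_num) |>.1 h2

theorem sm_x0 {k : Type} [Field k] [CharZero k] {x0 y0 y1 y2 : k}
    (h0 : -6*x0*y2 = 0)
    (h2 : x0^2 + 3*x0*y0 = 0)
    (h4 : y0*y1 - y0*y2 + y2^2 = 0)
    (h5 : -3*x0^2 - y0^2 - 2*y0*y1 + 4*y1*y2 = 0)
    : x0 = 0 := by
  have h : (28 : k) * x0 ^ 3 = 0 := by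
    linear_combination (3*y0 - 6*y1 - 3*y2) * h0 + (x0 - 3*y0) * h2 + (-18*x0) * h4 + (-9*x0) * h5
  have h2 : x0 ^ 3 = 0 := by
    rcases mul_eq_zero.1 h with h | h
    · exact absurd h (by norm_num)
    · exact h
  exact pow_eq_zero_iff (by norm_num) |>.1 h2

theorem sm_y0 {k : Type} [Field k] [CharZero k] {y0 y1 y2 : k}
    (h3 : -2*y0*y2 + y1^2 - 2*y1*y2 = 0)
    (h4 : y0*y1 - y0*y2 + y2^2 = 0)
    (h5 : -y0^2 - 2*y0*y1 + 4*y1*y2 = 0)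
    : y0 = 0 := by
  have h : (93 : k) * y0 ^ 4 = 0 := by
    linear_combination (93*y0^2 - 222*y0*y1 - 112*y0*y2 + 92*y1*y2) * h3 + (-186*y0^2 - 116*y0*y1 + 176*y1^2 - 152*y1*y2) * h4 + (-93*y0^2 - 23*y1^2 + 2*y1*y2 + 38*y2^2) * h5
  have h2 : y0 ^ 4 = 0 := by
    rcases mul_eq_zero.1 h with h | h
    · exact absurd h (by norm_num)
    · exact h
  exact pow_eq_zero_iff (by norm_num) |>.1 h2

theorem sm_y1 {k : Type} [Field k] [CharZero k] {y0 y1 y2 : k}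
    (h3 : -2*y0*y2 + y1^2 - 2*y1*y2 = 0)
    (h4 : y0*y1 - y0*y2 + y2^2 = 0)
    (h5 : -y0^2 - 2*y0*y1 + 4*y1*y2 = 0)
    : y1 = 0 := by
  have h : (93 : k) * y1 ^ 4 = 0 := by
    linear_combination (-4*y0*y1 + 22*y0*y2 + 93*y1^2 - 38*y1*y2) * h3 + (56*y0*y1 + 116*y1^2 + 176*y1*y2) * h4 + (56*y1^2 - 48*y1*y2 - 44*y2^2) * h5
  have h2 : y1 ^ 4 = 0 := by
    rcases mul_eq_zero.1 h with h | h
    · exact absurd h (by norm_num)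
    · exact h
  exact pow_eq_zero_iff (by norm_num) |>.1 h2

theorem sm_y2 {k : Type} [Field k] [CharZero k] {y0 y1 y2 : k}
    (h3 : -2*y0*y2 + y1^2 - 2*y1*y2 = 0)
    (h4 : y0*y1 - y0*y2 + y2^2 = 0)
    (h5 : -y0^2 - 2*y0*y1 + 4*y1*y2 = 0)
    : y2 = 0 := by
  have h : (186 : k) * y2 ^ 4 = 0 := by
    linear_combination (-25*y0*y1 + 29*y0*y2 + 88*y1*y2 - 93*y2^2) * h3 + (-22*y0*y1 - 19*y1^2 + 46*y1*y2 + 186*y2^2) * h4 + (-22*y1^2 + 72*y1*y2 - 58*y2^2) * h5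
  have h2 : y2 ^ 4 = 0 := by
    rcases mul_eq_zero.1 h with h | h
    · exact absurd h (by norm_num)
    · exact h
  exact pow_eq_zero_iff (by norm_num) |>.1 h2

end Pool.Agent.Helper69.C18.NV
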