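import Pool.Agent.Helper69.C18.NV.Core
import Pool.Agent.Helper69.C18.NV.Sm1
import Pool.Agent.Helper69.C18.NV.Sm2

set_option autoImplicit false

namespace Pool.Agent.Helper69.C18.NV

open MvPolynomial

/-- The cubic form as a polynomial. -/
noncomputable def FF : MvPolynomial (Fin 6) ℂ :=
  X 0 ^ 2 * X 2 - C 3 * (X 0 ^ 2 * X 5) - X 0 * X 1 ^ 2 - C 2 * (X 0 * X 1 * X 2)
    + C 6 * (X 0 * X 1 * X 5) + C 3 * (X 0 * X 2 * X 3) + C 2 * (X 1 ^ 3)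
    - C 2 * (X 1 ^ 2 * X 4) - C 2 * (X 1 * X 2 ^ 2) - C 2 * (X 1 * X 2 * X 3)
    - X 3 ^ 2 * X 5 + X 3 * X 4 ^ 2 - C 2 * (X 3 * X 4 * X 5) + C 2 * (X 4 * X 5 ^ 2)

lemma FF_hom : FF.IsHomogeneous 3 := by
  have hX : ∀ i : Fin 6, (X i : MvPolynomial (Fin 6) ℂ).IsHomogeneous 1 := isHomogeneous_X ℂ
  have h3 : ∀ i j k : Fin 6, (X i * X j * X k : MvPolynomial (Fin 6) ℂ).IsHomogeneous 3 :=
    fun i j k => ((hX i).mul (hX j)).mul (hX k)
  have h12 : ∀ i j : Fin 6, (X i * X j ^ 2 : MvPolynomial (Fin 6) ℂ).IsHomogeneous 3 :=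
    fun i j => (hX i).mul ((hX j).pow 2)
  have h21 : ∀ i j : Fin 6, (X i ^ 2 * X j : MvPolynomial (Fin 6) ℂ).IsHomogeneous 3 :=
    fun i j => ((hX i).pow 2).mul (hX j)
  have h30 : ∀ i : Fin 6, (X i ^ 3 : MvPolynomial (Fin 6) ℂ).IsHomogeneous 3 :=
    fun i => (hX i).pow 3
  have hC : ∀ (a : ℂ) {p : MvPolynomial (Fin 6) ℂ}, p.IsHomogeneous 3 →
      (C a * p).IsHomogeneous 3 := by
    intro a p hp
    have := (isHomogeneous_C (Fin 6) a).mul hp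
    rwa [zero_add] at this
  rw [FF]
  exact (((((((((((((h21 0 2).sub (hC _ (h21 0 5))).sub (h12 0 1)).sub (hC _ (h3 0 1 2))).add
    (hC _ (h3 0 1 5))).add (hC _ (h3 0 2 3))).add (hC _ (h30 1))).sub (hC _ (h21 1 4))).sub
    (hC _ (h12 1 2))).sub (hC _ (h3 1 2 3))).sub (h21 3 5)).add (h12 3 4)).sub
    (hC _ (h3 3 4 5))).add (hC _ (h12 4 5))

lemma FF_eval (x y : Fin 3 → ℂ) : eval ![x 0, x 1, x 2, y 0, y 1, y 2] FF = Fc x y := by
  simp [FF, Fc, dx, dy, A]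
  ring

lemma FF_smooth (x : Fin 6 → ℂ) (hx : x ≠ 0) : ∃ i, eval x (pderiv i FF) ≠ 0 := by
  by_contra hcon
  push Not at hcon
  have d0 := hcon 0
  have d1 := hcon 1
  have d2 := hcon 2
  have d3 := hcon 3
  have d4 := hcon 4
  have d5 := hcon 5
  simp [FF, pderiv_X] at d0 d1 d2 d3 d4 d5
  obtain ⟨x0, h0⟩ : ∃ a, x 0 = a := ⟨_, rfl⟩
  obtain ⟨x1, h1⟩ : ∃ a, x 1 = a := ⟨_, rfl⟩
  obtain ⟨x2, h2⟩ : ∃ a, x 2 = a := ⟨_, rfl⟩
  obtain ⟨y0, h3⟩ : ∃ a, x 3 = a := ⟨_, rfl⟩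
  obtain ⟨y1, h4⟩ : ∃ a, x 4 = a := ⟨_, rfl⟩
  obtain ⟨y2, h5⟩ : ∃ a, x 5 = a := ⟨_, rfl⟩
  simp only [h0, h1, h2, h3, h4, h5] at d0 d1 d2 d3 d4 d5
  have z2 : x2 = 0 := sm_x2 (x0 := x0) (x1 := x1) (x2 := x2) (y0 := y0) (y1 := y1) (y2 := y2)
    (by linear_combination d0) (by linear_combination d1 / 2) (by linear_combination d2)
    (by linear_combination d3) (by linear_combination d4 / 2) (by linear_combination d5)
  subst z2
  have z1 : x1 = 0 := sm_x1 (x0 := x0) (x1 := x1) (y0 := y0) (y1 := y1) (y2 := y2)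
    (by linear_combination d0) (by linear_combination d1 / 2) (by linear_combination d2)
    (by linear_combination d3) (by linear_combination d4 / 2)
  subst z1
  have z0 : x0 = 0 := sm_x0 (x0 := x0) (y0 := y0) (y1 := y1) (y2 := y2)
    (by linear_combination d0) (by linear_combination d2)
    (by linear_combination d4 / 2) (by linear_combination d5)
  subst z0
  have e3 : -2*y0*y2 + y1^2 - 2*y1*y2 = 0 := by linear_combination d3
  have e4 : y0*y1 - y0*y2 + y2^2 = 0 := by linear_combination d4 / 2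
  have e5 : -y0^2 - 2*y0*y1 + 4*y1*y2 = 0 := by linear_combination d5
  have w0 : y0 = 0 := sm_y0 e3 e4 e5
  have w1 : y1 = 0 := sm_y1 e3 e4 e5
  have w2 : y2 = 0 := sm_y2 e3 e4 e5
  apply hx
  funext i
  fin_cases i
  · exact h0
  · exact h1
  · exact h2
  · exact h3.trans w0
  · exact h4.trans w1
  · exact h5.trans w2

end Pool.Agent.Helper69.C18.NV
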