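import Pool.Agent.Helper69.C18.NV.N1
import Pool.Agent.Helper69.C18.NV.N2
import Pool.Agent.Helper69.C18.NV.SmF
import Pool.Agent.Helper69.C18.NV.Irr
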