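import Mathlib

set_option autoImplicit false

/-!
# The link of a plane `L` with `T · L = 1`: algebra

Everything here is polymorphic and integral, so that nonvanishing can be tested at integer points.
-/

namespace Pool.Agent.Helper69.C18.NV

section defs

variable {R : Type} [CommRing R]

/-- The three bilinear forms. -/
def A (x y : Fin 3 → R) : Fin 3 → R :=
  ![x 0 * y 1 + x 1 * y 0 + 2 * x 2 * y 2, x 1 * y 1 + x 2 * y 0,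
    -(x 0 * y 2) + 2 * x 1 * y 2 + x 2 * y 0]

def cr (a b : Fin 3 → R) : Fin 3 → R :=
  ![a 1 * b 2 - a 2 * b 1, a 2 * b 0 - a 0 * b 2, a 0 * b 1 - a 1 * b 0]

def m (t x : Fin 3 → R) : R := -(t 0 * x 1) + t 1 * (x 0 + 2 * x 1) - 2 * t 2 * x 0

def m' (t x : Fin 3 → R) : R := t 0 * x 1 - t 1 * x 0 - t 2 * x 0

def Pv (v : Fin 4 → R) : Fin 3 → R := ![v 2, -(2 * v 1), v 0 - v 3]

def Cv (v : Fin 4 → R) : Fin 3 → R :=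
  ![-v 0 + v 1 - 2 * v 2 + v 3 + 3 * (v 1 * v 3 - v 2 ^ 2)
      - (v 0 * v 2 * v 3 - 2 * v 1 ^ 2 * v 3 + v 1 * v 2 ^ 2),
    -1 + v 0 + 2 * v 1 - v 3 - 3 * (v 0 * v 3 - v 1 * v 2) - 2 * (v 1 * v 3 - v 2 ^ 2)
      - 2 * (v 0 * v 1 * v 3 - 2 * v 0 * v 2 ^ 2 + v 1 ^ 2 * v 2),
    2 + (v 0 ^ 2 * v 3 - 3 * v 0 * v 1 * v 2 + 2 * v 1 ^ 3)
      + (v 0 * v 3 ^ 2 - 3 * v 1 * v 2 * v 3 + 2 * v 2 ^ 3)]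

/-- The map to the plane. -/
def tt (v : Fin 4 → R) : Fin 3 → R := cr (Pv v) (Cv v)

def zz (v : Fin 4 → R) : Fin 3 → R :=
  ![1 + v 0 - v 3 - (v 0 * v 3 - v 1 * v 2), v 0 - v 1 - v 3 - (v 1 * v 3 - v 2 ^ 2),
    -(v 0 * v 2 - v 1 ^ 2)]

def zeta (t : Fin 3 → R) (v : Fin 4 → R) : R :=
  t 0 * (-v 0 + 3 * v 1 + v 3 + 2 * v 1 ^ 2 + v 1 * v 3 - v 2 ^ 2)
    + t 1 * (1 - v 0 - 2 * v 1 - 3 * v 3 - 4 * v 0 * v 1 - v 0 * v 3 + v 1 * v 2 - 2 * v 1 * v 3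
      + 2 * v 2 ^ 2)
    + t 2 * (2 * v 0 + 2 * v 0 ^ 2 - 2 * v 1 * v 2)

def yv (z x : Fin 3 → R) (s : R) : Fin 3 → R := ![x 0 + s * z 0, x 1 + s * z 1, x 2 + s * z 2]

def R1 (t z : Fin 3 → R) (ζ : R) (x : Fin 3 → R) (s : R) : R :=
  2 * m t x * z 1 + ζ * x 1 + s * ζ * z 1 - 2 * cr (A x z) t 1 - 2 * cr (A x z) t 2

def R2 (t z : Fin 3 → R) (ζ : R) (x : Fin 3 → R) (s : R) : R :=
  2 * m t x * z 2 + ζ * x 2 + s * ζ * z 2 + 2 * cr (A x z) t 0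

def Q1 (t z : Fin 3 → R) (ζ : R) (x : Fin 3 → R) (s : R) : R :=
  -(2 * m' t (yv z x s) * z 1) + (-ζ - 2 * m' t z) * x 1 - 2 * cr (A z (yv z x s)) t 2

def Q2 (t z : Fin 3 → R) (ζ : R) (x : Fin 3 → R) (s : R) : R :=
  -(2 * m' t (yv z x s) * z 2) + (-ζ - 2 * m' t z) * x 2 - 2 * cr (A z (yv z x s)) t 0

def L3 (t z : Fin 3 → R) (ζ : R) (x : Fin 3 → R) (s : R) : R :=
  2 * (m t x + m' t x + s * m' t z) * z 0 + 2 * ζ * x 0 + s * ζ * z 0 + 2 * m' t z * x 0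
    + 2 * (4 * t 0 * x 1 * z 1 - 4 * t 1 * (x 0 * z 1 + x 1 * z 0)
      + 2 * t 2 * (2 * x 0 * z 0 - x 1 * z 2 - x 2 * z 1))
    + 2 * s * (2 * t 0 * z 1 ^ 2 - 4 * t 1 * z 0 * z 1 + 2 * t 2 * (z 0 ^ 2 - z 1 * z 2))
    + 4 * cr (A z (yv z x s)) t 2

/-- `adj(A(x)) t`. -/
def ph (t x : Fin 3 → R) : Fin 3 → R :=
  ![t 0 * (x 1 * (2 * x 1 - x 0)) - t 1 * ((2 * x 1 - x 0) * x 0) - 2 * t 2 * (x 1 * x 2),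
    -(t 0 * (x 2 * (2 * x 1 - x 0))) + t 1 * ((2 * x 1 - x 0) * x 1 - 2 * x 2 ^ 2)
      + 2 * t 2 * x 2 ^ 2,
    -(t 0 * (x 1 * x 2)) + t 1 * (x 0 * x 2) + t 2 * (x 1 ^ 2 - x 0 * x 2)]

/-- `adj(A'(y)) t`. -/
def ph' (t y : Fin 3 → R) : Fin 3 → R :=
  ![t 0 * (y 0 * y 1 - 2 * y 0 * y 2) + t 1 * (4 * y 2 ^ 2 - y 0 ^ 2)
      + t 2 * (y 0 ^ 2 - 2 * y 1 * y 2),
    -(t 0 * (y 0 * y 2)) + t 1 * (y 0 * y 1 + 2 * y 2 ^ 2) - t 2 * (y 0 * y 1),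
    t 0 * (y 1 * y 2) - t 1 * (y 0 * y 2 + 2 * y 1 * y 2) + t 2 * y 1 ^ 2]

def dx (x : Fin 3 → R) : R :=
  (2 * x 1 - x 0) * (x 1 ^ 2 - x 0 * x 2) - 2 * x 1 * x 2 ^ 2

def dy (y : Fin 3 → R) : R :=
  y 0 * y 1 ^ 2 + 2 * y 1 * y 2 ^ 2 - y 0 ^ 2 * y 2 - 2 * y 0 * y 1 * y 2

/-- The cubic form. -/
def Fc (x y : Fin 3 → R) : R := dx x + dy y - 2 * x 1 * A x y 1 + 3 * x 0 * A x y 2

lemma A_ph (t x : Fin 3 → R) (i : Fin 3) : A x (ph t x) i = dx x * t i := by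
  fin_cases i <;> simp [A, ph, dx] <;> ring

lemma A_ph' (t y : Fin 3 → R) (i : Fin 3) : A (ph' t y) y i = dy y * t i := by
  fin_cases i <;> simp [A, ph', dy] <;> ring

end defs

section core

variable {R : Type} [CommRing R]

lemma syz1 (t : Fin 3 → R) (v : Fin 4 → R) (x : Fin 3 → R) (s : R)
    (hP : t 0 * Pv v 0 + t 1 * Pv v 1 + t 2 * Pv v 2 = 0)
    (hC : t 0 * Cv v 0 + t 1 * Cv v 1 + t 2 * Cv v 2 = 0) :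
    (1 + v 0) * R1 t (zz v) (zeta t v) x s + v 2 * R2 t (zz v) (zeta t v) x s
      + (1 - v 0) * Q1 t (zz v) (zeta t v) x s - v 2 * Q2 t (zz v) (zeta t v) x s
      - v 1 * L3 t (zz v) (zeta t v) x s = 0 := by
  simp only [Pv, Cv, zz, zeta, R1, R2, Q1, Q2, L3, yv, A, cr, m, m', Matrix.cons_val_zero,
    Matrix.cons_val_one, Matrix.cons_val] at hP hC ⊢
  linear_combination (-4 * x 0 * v 0 * v 1 - 4 * x 0 * v 0 + 4 * x 1 * v 0 ^ 2 + 2 * x 1 * v 0 * v 3 + 4 * x 1 * v 0 - 2 * x 1 * v 1 * v 2 + 4 * x 1 * v 2 + 4 * x 1 + 4 * x 2 * v 1 ^ 2 + 4 * x 2 * v 1 - s * v 0 ^ 3 * v 3 + 2 * s * v 0 ^ 3 + 3 * s * v 0 ^ 2 * v 1 * v 2 + 2 * s * v 0 ^ 2 * v 1 * v 3 - 4 * s * v 0 ^ 2 * v 1 - s * v 0 ^ 2 * v 3 ^ 2 + s * v 0 ^ 2 * v 3 + 2 * s * v 0 ^ 2 - 2 * s * v 0 * v 1 ^ 3 - 6 * s * v 0 * v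 1 ^ 2 * v 2 + 3 * s * v 0 * v 1 * v 2 * v 3 - 5 * s * v 0 * v 1 * v 2 + 2 * s * v 0 * v 1 * v 3 - 8 * s * v 0 * v 1 - 2 * s * v 0 * v 2 ^ 3 + s * v 0 * v 2 ^ 2 * v 3 + 2 * s * v 0 * v 2 - s * v 0 * v 3 ^ 2 + 4 * s * v 1 ^ 4 + 2 * s * v 1 ^ 3 - 2 * s * v 1 ^ 2 * v 2 * v 3 + s * v 1 * v 2 ^ 3 - s * v 1 * v 2 * v 3 - 4 * s * v 1 * v 2 - 4 * s * v 1 + 2 * s * v 2 ^ 3 + 2 * s * v 2 ^ 2 - 2 * s * v 2 * v 3 - 2 * s * v 3) * hP + (2 * x 1 + s * v 0 ^ 2 - 2 * s * v 0 * v 1 - s * v 0 * v 3 + s * v 0 - 2 * s * v 1 + s * v 2 ^ 2 - s * v 3) * hC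

lemma syz2 (t : Fin 3 → R) (v : Fin 4 → R) (x : Fin 3 → R) (s : R)
    (hP : t 0 * Pv v 0 + t 1 * Pv v 1 + t 2 * Pv v 2 = 0)
    (hC : t 0 * Cv v 0 + t 1 * Cv v 1 + t 2 * Cv v 2 = 0) :
    v 1 * R1 t (zz v) (zeta t v) x s + (1 + v 3) * R2 t (zz v) (zeta t v) x s
      - v 1 * Q1 t (zz v) (zeta t v) x s + (1 - v 3) * Q2 t (zz v) (zeta t v) x s
      - v 2 * L3 t (zz v) (zeta t v) x s = 0 := by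
  simp only [Pv, Cv, zz, zeta, R1, R2, Q1, Q2, L3, yv, A, cr, m, m', Matrix.cons_val_zero,
    Matrix.cons_val_one, Matrix.cons_val] at hP hC ⊢
  linear_combination (-4 * x 0 * v 0 * v 2 - 4 * x 0 * v 1 + 4 * x 1 * v 0 * v 1 + 4 * x 1 * v 1 * v 3 + 4 * x 1 * v 1 - 4 * x 1 * v 2 ^ 2 + 4 * x 1 * v 3 + 2 * x 2 * v 0 * v 3 + 2 * x 2 * v 1 * v 2 + 4 * x 2 * v 2 + 4 * x 2 - s * v 0 ^ 2 * v 1 * v 3 + 2 * s * v 0 ^ 2 * v 1 + 2 * s * v 0 ^ 2 * v 2 * v 3 - 4 * s * v 0 ^ 2 * v 2 + 3 * s * v 0 * v 1 ^ 2 * v 2 - 6 * s * v 0 * v 1 * v 2 ^ 2 - s * v 0 * v 1 * v 3 ^ 2 + 2 * s * v 0 * v 1 * v 3 - 4 * s * v 0 * v 2 ^ 2 + s * v 0 * v 2 * v 3 ^ 2 + 3 * s * v 0 * v 2 * v 3 - 8 * s * v 0 * v 2 + 2 * s * v 0 * v 3 - 2 * s * v 0 - 2 * s * v 1 ^ 4 + 4 * s * v 1 ^ 3 * v 2 + 3 * s * v 1 ^ 2 * v 2 *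 v 3 - 2 * s * v 1 ^ 2 * v 3 ^ 2 + 2 * s * v 1 ^ 2 - 2 * s * v 1 * v 2 ^ 3 + s * v 1 * v 2 ^ 2 * v 3 - s * v 1 * v 2 ^ 2 - 4 * s * v 1 * v 3 ^ 2 + 2 * s * v 1 * v 3 + 4 * s * v 2 ^ 2 * v 3 - 4 * s * v 2 ^ 2 + 2 * s * v 2 * v 3 - 2 * s * v 2 - 2 * s * v 3 ^ 2 + 2 * s * v 3) * hP + (2 * x 2 + s * v 0 * v 1 - 2 * s * v 0 * v 2 - s * v 1 * v 3 + s * v 2 * v 3 - s * v 2) * hC

end core

end Pool.Agent.Helper69.C18.NV
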