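import Pool.Agent.Helper69.C18.NV.Core

set_option autoImplicit false

namespace Pool.Agent.Helper69.C18.NV

section defs

variable {R : Type} [CommRing R]

/-- Four of the six equations for `(ε, E)`. -/
def M4 (t x y : Fin 3 → R) (S T : R) : Matrix (Fin 4) (Fin 4) R :=
  !![x 2 * t 1 - x 2 * t 2, 2 * x 0 * t 1 - 4 * x 1 * t 1 + S, -(2 * x 1 * t 2), -(2 * x 1 * t 2);
    -(y 2 * t 1), -(2 * y 0 * t 1) + 2 * y 0 * t 2 + T, 0, 2 * y 1 * t 2;
    y 1 * t 2 + y 2 * t 0, 2 * y 0 * t 0 - 4 * y 2 * t 2, T, -(2 * y 0 * t 2) - 4 * y 1 * t 2;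
    -(y 1 * t 1), -(2 * y 0 * t 0) + 4 * y 2 * t 1, 0,
      2 * y 0 * t 1 - 2 * y 1 * t 0 + 4 * y 1 * t 1 + T]

def Sv (t x : Fin 3 → R) (ζ s : R) : R := 2 * m t x + s * ζ

def Tv (t y z : Fin 3 → R) (ζ s : R) : R := 2 * m' t y + s * (-ζ - 2 * m' t z)

end defs

variable {K : Type} [Field K] [CharZero K]

theorem core (t z x : Fin 3 → K) (ζ s : K)
    (h1 : R1 t z ζ x s = 0) (h2 : R2 t z ζ x s = 0) (h3 : Q1 t z ζ x s = 0)
    (h4 : Q2 t z ζ x s = 0) (h5 : L3 t z ζ x s = 0)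
    (hdet : (M4 t x (yv z x s) (Sv t x ζ s) (Tv t (yv z x s) z ζ s)).det ≠ 0)
    (ht : t 0 ≠ 0) (hA : A x (yv z x s) 0 ≠ 0) :
    ∃ μ : K, μ ≠ 0 ∧ (∀ i, A x (yv z x s) i = μ * t i) ∧ Fc x (yv z x s) = 0 := by
  obtain ⟨y, hy⟩ : ∃ y, yv z x s = y := ⟨_, rfl⟩
  have y0 : y 0 = x 0 + s * z 0 := by rw [← hy]; rfl
  have y1 : y 1 = x 1 + s * z 1 := by rw [← hy]; rfl
  have y2 : y 2 = x 2 + s * z 2 := by rw [← hy]; rfl
  simp only [Q1, Q2, L3, hy] at h3 h4 h5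
  rw [hy] at hdet hA ⊢
  obtain ⟨S, hS⟩ : ∃ S, Sv t x ζ s = S := ⟨_, rfl⟩
  obtain ⟨T, hT⟩ : ∃ T, Tv t y z ζ s = T := ⟨_, rfl⟩
  rw [hS, hT] at hdet
  have hS' : S = 2 * m t x + s * ζ := by rw [← hS]; rfl
  have hT' : T = 2 * m' t y + s * (-ζ - 2 * m' t z) := by rw [← hT]; rfl
  simp only [R1, R2, A, cr, m, m', Matrix.cons_val_zero, Matrix.cons_val_one,
    Matrix.cons_val] at h1 h2 h3 h4 h5 hS' hT'
  -- the vector `(ε, E)`
  obtain ⟨E, hE⟩ : ∃ E, cr (A x y) t = E := ⟨_, rfl⟩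
  obtain ⟨e, he⟩ : ∃ e, S * y 0 - 2 * ph t x 0 = e := ⟨_, rfl⟩
  have hE0 : E 0 = A x y 1 * t 2 - A x y 2 * t 1 := by rw [← hE]; rfl
  have hE1 : E 1 = A x y 2 * t 0 - A x y 0 * t 2 := by rw [← hE]; rfl
  have hE2 : E 2 = A x y 0 * t 1 - A x y 1 * t 0 := by rw [← hE]; rfl
  have e1 : S * y 1 - 2 * ph t x 1 = 2 * E 1 + 2 * E 2 := by
    rw [hE1, hE2, hS']
    simp only [A, ph, Matrix.cons_val_zero, Matrix.cons_val_one, Matrix.cons_val, y0, y1, y2]
    linear_combination s * h1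
  have e2 : S * y 2 - 2 * ph t x 2 = -(2 * E 0) := by
    rw [hE0, hS']
    simp only [A, ph, Matrix.cons_val_zero, Matrix.cons_val_one, Matrix.cons_val, y0, y1, y2]
    linear_combination s * h2
  have x0 : x 0 = y 0 - s * z 0 := by rw [y0]; ring
  have x1 : x 1 = y 1 - s * z 1 := by rw [y1]; ring
  have x2 : x 2 = y 2 - s * z 2 := by rw [y2]; ring
  have f1 : T * x 1 - 2 * ph' t y 1 = -(2 * E 2) := by
    rw [hE2, hT']
    simp only [A, ph', Matrix.cons_val_zero, Matrix.cons_val_one, Matrix.cons_val]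
    simp only [x0, x1, x2] at h3 ⊢
    linear_combination s * h3
  have f2 : T * x 2 - 2 * ph' t y 2 = -(2 * E 0) := by
    rw [hE0, hT']
    simp only [A, ph', Matrix.cons_val_zero, Matrix.cons_val_one, Matrix.cons_val]
    simp only [x0, x1, x2] at h4 ⊢
    linear_combination s * h4
  have f0 : T * x 0 - 2 * ph' t y 0 = e - 4 * E 2 := by
    rw [hE2, hT', ← he, hS']
    simp only [A, ph, ph', Matrix.cons_val_zero, Matrix.cons_val_one, Matrix.cons_val]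
    simp only [y0, y1, y2] at h5 ⊢
    linear_combination -s * h5
  have hv : (M4 t x y S T).mulVec ![e, E 0, E 1, E 2] = 0 := by
    have hA0 := A_ph t x 0
    have hA1 := A_ph t x 1
    have hA2 := A_ph t x 2
    have hB0 := A_ph' t y 0
    have hB1 := A_ph' t y 1
    have hB2 := A_ph' t y 2
    simp only [A, Matrix.cons_val_zero, Matrix.cons_val_one, Matrix.cons_val]
      at hA0 hA1 hA2 hB0 hB1 hB2 hE0 hE1 hE2
    funext i
    fin_cases i
    · simp [M4, Matrix.mulVec, dotProduct, Fin.sum_univ_succ]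
      linear_combination S * hE0 + t 2 * x 1 * e1 + (t 2 - t 1) * x 2 * he
        - t 1 * (2 * x 1 - x 0) * e2 + 2 * t 2 * hA1 - 2 * t 1 * hA2
    · simp [M4, Matrix.mulVec, dotProduct, Fin.sum_univ_succ]
      linear_combination T * hE0 + t 2 * (y 1 * f1 + y 0 * f2)
        - t 1 * (-y 2 * f0 + 2 * y 2 * f1 + y 0 * f2) + 2 * t 2 * hB1 - 2 * t 1 * hB2
    · simp [M4, Matrix.mulVec, dotProduct, Fin.sum_univ_succ]
      linear_combination T * hE1 + t 0 * (-y 2 * f0 + 2 * y 2 * f1 + y 0 * f2)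
        - t 2 * (y 1 * f0 + y 0 * f1 + 2 * y 2 * f2) + 2 * t 0 * hB2 - 2 * t 2 * hB0
    · simp [M4, Matrix.mulVec, dotProduct, Fin.sum_univ_succ]
      linear_combination T * hE2 + t 1 * (y 1 * f0 + y 0 * f1 + 2 * y 2 * f2)
        - t 0 * (y 1 * f1 + y 0 * f2) + 2 * t 1 * hB0 - 2 * t 0 * hB1
  have hz := Matrix.eq_zero_of_mulVec_eq_zero hdet hv
  have z0 : e = 0 := by simpa using congrFun hz 0
  have z1 : E 0 = 0 := by simpa using congrFun hz 1
  have z2 : E 1 = 0 := by simpa using congrFun hz 2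
  have z3 : E 2 = 0 := by simpa using congrFun hz 3
  rw [z0] at he f0
  rw [z1] at e2 f2 hE0
  rw [z2] at hE1
  rw [z2, z3] at e1
  rw [z3] at f0 f1 hE2
  refine ⟨A x y 0 / t 0, div_ne_zero hA ht, ?_, ?_⟩
  · intro i
    fin_cases i
    · show A x y 0 = A x y 0 / t 0 * t 0
      field_simp
    · show A x y 1 = A x y 0 / t 0 * t 1
      field_simp
      linear_combination hE2
    · show A x y 2 = A x y 0 / t 0 * t 2
      field_simp
      linear_combination -hE1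
  · have hA0 := A_ph t x 0
    have hB0 := A_ph' t y 0
    simp only [A, Matrix.cons_val_zero, Matrix.cons_val_one, Matrix.cons_val]
      at hA0 hB0 hE1 hE2
    have k : (2 * t 0) * Fc x y = 0 := by
      simp only [Fc, A, Matrix.cons_val_one, Matrix.cons_val]
      rw [y0, y1] at hT'
      have hST : S + T = 4 * t 1 * x 1 - 6 * t 2 * x 0 := by
        rw [hS', hT']
        ring
      linear_combination (x 0 * y 1 + x 1 * y 0 + 2 * x 2 * y 2) * hST
        - 2 * hA0 - 2 * hB0 - x 1 * he - x 0 * e1 - 2 * x 2 * e2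
        - y 1 * f0 - y 0 * f1 - 2 * y 2 * f2 - 4 * x 1 * hE2 - 6 * x 0 * hE1
    rcases mul_eq_zero.1 k with k | k
    · exact absurd k (mul_ne_zero two_ne_zero ht)
    · exact k

end Pool.Agent.Helper69.C18.NV
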