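import Pool.Agent.Helper69.C18.NV.Core2

set_option autoImplicit false

namespace Pool.Agent.Helper69.C18.NV

section defs

variable {R : Type} [CommRing R]

def row (f : (Fin 3 → R) → R → R) : Fin 4 → R :=
  ![f ![1, 0, 0] 0, f ![0, 1, 0] 0, f ![0, 0, 1] 0, f ![0, 0, 0] 1]

def r1 (t z : Fin 3 → R) (ζ : R) : Fin 4 → R := row (R1 t z ζ)
def r2 (t z : Fin 3 → R) (ζ : R) : Fin 4 → R := row (R2 t z ζ)
def r5 (t z : Fin 3 → R) (ζ : R) : Fin 4 → R := row (L3 t z ζ)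

def d3 (a b c : Fin 4 → R) (i j k : Fin 4) : R :=
  a i * (b j * c k - b k * c j) - a j * (b i * c k - b k * c i) + a k * (b i * c j - b j * c i)

def ker (a b c : Fin 4 → R) : Fin 4 → R :=
  ![d3 a b c 1 2 3, -d3 a b c 0 2 3, d3 a b c 0 1 3, -d3 a b c 0 1 2]

def sol (v : Fin 4 → R) : Fin 4 → R :=
  ker (r1 (tt v) (zz v) (zeta (tt v) v)) (r2 (tt v) (zz v) (zeta (tt v) v))
    (r5 (tt v) (zz v) (zeta (tt v) v))

def xs (v : Fin 4 → R) : Fin 3 → R := ![sol v 0, sol v 1, sol v 2]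

def ys (v : Fin 4 → R) : Fin 3 → R := yv (zz v) (xs v) (sol v 3)

def DD (v : Fin 4 → R) : R :=
  (M4 (tt v) (xs v) (ys v) (Sv (tt v) (xs v) (zeta (tt v) v) (sol v 3))
    (Tv (tt v) (ys v) (zz v) (zeta (tt v) v) (sol v 3))).det

def D2 (v : Fin 4 → R) : R := (1 - v 0) * (1 - v 3) - v 1 * v 2

lemma R1_row (t z : Fin 3 → R) (ζ : R) (x : Fin 3 → R) (s : R) :
    R1 t z ζ x s = r1 t z ζ 0 * x 0 + r1 t z ζ 1 * x 1 + r1 t z ζ 2 * x 2 + r1 t z ζ 3 * s := by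
  simp [r1, row, R1, A, cr, m]
  ring

lemma R2_row (t z : Fin 3 → R) (ζ : R) (x : Fin 3 → R) (s : R) :
    R2 t z ζ x s = r2 t z ζ 0 * x 0 + r2 t z ζ 1 * x 1 + r2 t z ζ 2 * x 2 + r2 t z ζ 3 * s := by
  simp [r2, row, R2, A, cr, m]
  ring

lemma L3_row (t z : Fin 3 → R) (ζ : R) (x : Fin 3 → R) (s : R) :
    L3 t z ζ x s = r5 t z ζ 0 * x 0 + r5 t z ζ 1 * x 1 + r5 t z ζ 2 * x 2 + r5 t z ζ 3 * s := by
  simp [r5, row, L3, A, cr, m, m', yv]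
  ring

lemma ker1 (a b c : Fin 4 → R) :
    a 0 * ker a b c 0 + a 1 * ker a b c 1 + a 2 * ker a b c 2 + a 3 * ker a b c 3 = 0 := by
  simp [ker, d3]
  ring

lemma ker2 (a b c : Fin 4 → R) :
    b 0 * ker a b c 0 + b 1 * ker a b c 1 + b 2 * ker a b c 2 + b 3 * ker a b c 3 = 0 := by
  simp [ker, d3]
  ring

lemma ker3 (a b c : Fin 4 → R) :
    c 0 * ker a b c 0 + c 1 * ker a b c 1 + c 2 * ker a b c 2 + c 3 * ker a b c 3 = 0 := by
  simp [ker, d3]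
  ring

lemma tt_P (v : Fin 4 → R) : tt v 0 * Pv v 0 + tt v 1 * Pv v 1 + tt v 2 * Pv v 2 = 0 := by
  simp only [tt, cr, Matrix.cons_val_zero, Matrix.cons_val_one, Matrix.cons_val]
  ring

lemma tt_C (v : Fin 4 → R) : tt v 0 * Cv v 0 + tt v 1 * Cv v 1 + tt v 2 * Cv v 2 = 0 := by
  simp only [tt, cr, Matrix.cons_val_zero, Matrix.cons_val_one, Matrix.cons_val]
  ring

end defs

section maps

variable {R S : Type} [CommRing R] [CommRing S] (f : R →+* S)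

lemma f_tt (v : Fin 4 → R) : f ∘ tt v = tt (f ∘ v) := by
  funext i
  fin_cases i <;> simp [tt, cr, Pv, Cv, map_ofNat]

lemma f_zz (v : Fin 4 → R) : f ∘ zz v = zz (f ∘ v) := by
  funext i
  fin_cases i <;> simp [zz]

lemma f_zeta (t : Fin 3 → R) (v : Fin 4 → R) : f (zeta t v) = zeta (f ∘ t) (f ∘ v) := by
  simp [zeta, map_ofNat]

lemma f_r1 (t z : Fin 3 → R) (ζ : R) : f ∘ r1 t z ζ = r1 (f ∘ t) (f ∘ z) (f ζ) := by
  funext i
  fin_cases i <;> simp [r1, row, R1, A, cr, m, map_ofNat]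

lemma f_r2 (t z : Fin 3 → R) (ζ : R) : f ∘ r2 t z ζ = r2 (f ∘ t) (f ∘ z) (f ζ) := by
  funext i
  fin_cases i <;> simp [r2, row, R2, A, cr, m, map_ofNat]

lemma f_r5 (t z : Fin 3 → R) (ζ : R) : f ∘ r5 t z ζ = r5 (f ∘ t) (f ∘ z) (f ζ) := by
  funext i
  fin_cases i <;> simp [r5, row, L3, A, cr, m, m', yv, map_ofNat]

lemma f_ker (a b c : Fin 4 → R) : f ∘ ker a b c = ker (f ∘ a) (f ∘ b) (f ∘ c) := by
  funext i
  fin_cases i <;> simp [ker, d3]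

lemma f_sol (v : Fin 4 → R) : f ∘ sol v = sol (f ∘ v) := by
  rw [sol, f_ker, f_r1, f_r2, f_r5, f_zeta, f_tt, f_zz, sol]

lemma f_xs (v : Fin 4 → R) : f ∘ xs v = xs (f ∘ v) := by
  have h := f_sol f v
  funext i
  fin_cases i
  · exact congrFun h 0
  · exact congrFun h 1
  · exact congrFun h 2

lemma f_yv (z x : Fin 3 → R) (s : R) : f ∘ yv z x s = yv (f ∘ z) (f ∘ x) (f s) := by
  funext i
  fin_cases i <;> simp [yv]

lemma f_ys (v : Fin 4 → R) : f ∘ ys v = ys (f ∘ v) := by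
  have h : f (sol v 3) = sol (f ∘ v) 3 := congrFun (f_sol f v) 3
  rw [ys, f_yv, f_zz, f_xs, h, ys]

lemma f_A (x y : Fin 3 → R) : f ∘ A x y = A (f ∘ x) (f ∘ y) := by
  funext i
  fin_cases i <;> simp [A, map_ofNat]

lemma f_tti (v : Fin 4 → R) (i : Fin 3) : f (tt v i) = tt (f ∘ v) i := congrFun (f_tt f v) i

lemma f_Ai (x y : Fin 3 → R) (i : Fin 3) : f (A x y i) = A (f ∘ x) (f ∘ y) i :=
  congrFun (f_A f x y) i

lemma f_M4 (t x y : Fin 3 → R) (U T : R) :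
    (M4 t x y U T).map f = M4 (f ∘ t) (f ∘ x) (f ∘ y) (f U) (f T) := by
  ext i j
  fin_cases i <;> fin_cases j <;> simp [M4, map_ofNat]

lemma f_Sv (t x : Fin 3 → R) (ζ s : R) : f (Sv t x ζ s) = Sv (f ∘ t) (f ∘ x) (f ζ) (f s) := by
  simp [Sv, m, map_ofNat]

lemma f_Tv (t y z : Fin 3 → R) (ζ s : R) :
    f (Tv t y z ζ s) = Tv (f ∘ t) (f ∘ y) (f ∘ z) (f ζ) (f s) := by
  simp [Tv, m', map_ofNat]

lemma f_DD (v : Fin 4 → R) : f (DD v) = DD (f ∘ v) := by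
  have h : f (sol v 3) = sol (f ∘ v) 3 := congrFun (f_sol f v) 3
  rw [DD, RingHom.map_det, RingHom.mapMatrix_apply, f_M4, f_Sv, f_Tv, f_zeta, f_tt, f_xs, f_ys,
    f_zz, h, DD]

lemma f_D2 (v : Fin 4 → R) : f (D2 v) = D2 (f ∘ v) := by
  simp [D2]

end maps

section point

variable {K : Type} [Field K]

lemma tt_pt : tt (![-1, -1, -1, 1] : Fin 4 → K) = ![-2, 0, 1] := by
  funext i
  fin_cases i <;> simp [tt, cr, Pv, Cv] <;> norm_num

lemma zz_pt : zz (![-1, -1, -1, 1] : Fin 4 → K) = ![1, 1, 0] := by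
  funext i
  fin_cases i <;> simp [zz]

lemma zeta_pt : zeta (![-2, 0, 1] : Fin 3 → K) ![-1, -1, -1, 1] = 0 := by
  simp [zeta]
  norm_num

lemma r1_pt : r1 (![-2, 0, 1] : Fin 3 → K) ![1, 1, 0] 0 = ![-2, 2, 0, 0] := by
  funext i
  fin_cases i <;> simp [r1, row, R1, A, cr, m] <;> norm_num

lemma r2_pt : r2 (![-2, 0, 1] : Fin 3 → K) ![1, 1, 0] 0 = ![0, 2, 2, 0] := by
  funext i
  fin_cases i <;> simp [r2, row, R2, A, cr, m]

lemma r5_pt : r5 (![-2, 0, 1] : Fin 3 → K) ![1, 1, 0] 0 = ![-4, -8, -4, -2] := by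
  funext i
  fin_cases i <;> simp [r5, row, L3, A, cr, m, m', yv] <;> norm_num

lemma sol_pt : sol (![-1, -1, -1, 1] : Fin 4 → K) = ![-8, -8, 8, 32] := by
  rw [sol, tt_pt, zz_pt, zeta_pt, r1_pt, r2_pt, r5_pt]
  funext i
  fin_cases i <;> simp [ker, d3] <;> norm_num

lemma xs_pt : xs (![-1, -1, -1, 1] : Fin 4 → K) = ![-8, -8, 8] := by
  rw [xs, sol_pt]
  funext i
  fin_cases i <;> simp

lemma ys_pt : ys (![-1, -1, -1, 1] : Fin 4 → K) = ![24, 24, 8] := by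
  rw [ys, sol_pt, xs_pt, zz_pt]
  funext i
  fin_cases i <;> simp [yv] <;> norm_num

lemma A_pt : A (![-8, -8, 8] : Fin 3 → K) ![24, 24, 8] 0 = -256 := by
  simp [A]
  norm_num

lemma DD_pt : DD (![-1, -1, -1, 1] : Fin 4 → K) = -4718592 := by
  rw [DD, sol_pt, xs_pt, ys_pt, zz_pt, tt_pt, zeta_pt]
  have h1 : Sv (![-2, 0, 1] : Fin 3 → K) ![-8, -8, 8] 0 (![-8, -8, 8, 32] 3 : K) = 0 := by
    simp [Sv, m]
  have h2 : Tv (![-2, 0, 1] : Fin 3 → K) ![24, 24, 8] ![1, 1, 0] 0 (![-8, -8, 8, 32] 3 : K)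
      = 48 := by
    simp [Tv, m']
    norm_num
  rw [h1, h2]
  simp [M4, Matrix.det_succ_row_zero, Fin.sum_univ_succ, Fin.succAbove]
  norm_num

lemma D2_pt : D2 (![-1, -1, -1, 1] : Fin 4 → K) = -1 := by
  simp [D2]
  try norm_num

end point

section main

variable {K : Type} [Field K] [CharZero K]

/-- The map to `X` for any `v` with the nonvanishing conditions. -/
theorem main (v : Fin 4 → K) (h2 : D2 v ≠ 0) (hD : DD v ≠ 0) (ht : tt v 0 ≠ 0)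
    (hA : A (xs v) (ys v) 0 ≠ 0) :
    ∃ μ : K, μ ≠ 0 ∧ (∀ i, A (xs v) (ys v) i = μ * tt v i) ∧ Fc (xs v) (ys v) = 0 := by
  obtain ⟨t, ht'⟩ : ∃ t, tt v = t := ⟨_, rfl⟩
  have e1 : R1 (tt v) (zz v) (zeta (tt v) v) (xs v) (sol v 3) = 0 := by
    rw [R1_row]
    exact ker1 _ _ _
  have e2 : R2 (tt v) (zz v) (zeta (tt v) v) (xs v) (sol v 3) = 0 := by
    rw [R2_row]
    exact ker2 _ _ _
  have e5 : L3 (tt v) (zz v) (zeta (tt v) v) (xs v) (sol v 3) = 0 := by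
    rw [L3_row]
    exact ker3 _ _ _
  have s1 := syz1 (tt v) v (xs v) (sol v 3) (tt_P v) (tt_C v)
  have s2 := syz2 (tt v) v (xs v) (sol v 3) (tt_P v) (tt_C v)
  rw [e1, e2, e5] at s1 s2
  have e3 : Q1 (tt v) (zz v) (zeta (tt v) v) (xs v) (sol v 3) = 0 := by
    have : D2 v * Q1 (tt v) (zz v) (zeta (tt v) v) (xs v) (sol v 3) = 0 := by
      rw [D2]
      linear_combination (1 - v 3) * s1 + v 2 * s2
    exact (mul_eq_zero.1 this).resolve_left h2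
  have e4 : Q2 (tt v) (zz v) (zeta (tt v) v) (xs v) (sol v 3) = 0 := by
    have : D2 v * Q2 (tt v) (zz v) (zeta (tt v) v) (xs v) (sol v 3) = 0 := by
      rw [D2]
      linear_combination v 1 * s1 + (1 - v 0) * s2
    exact (mul_eq_zero.1 this).resolve_left h2
  exact core (tt v) (zz v) (xs v) (zeta (tt v) v) (sol v 3) e1 e2 e3 e4 e5 hD ht hA

end main

section generic

open MvPolynomial

/-- The field `ℂ(u 0, u 1, u 2, u 3)`. -/
abbrev K4 : Type := FractionRing (MvPolynomial (Fin 4) ℂ)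

lemma ne_of_eval (P : MvPolynomial (Fin 4) ℂ) (c : Fin 4 → ℂ) (h : eval c P ≠ 0) :
    algebraMap (MvPolynomial (Fin 4) ℂ) K4 P ≠ 0 := by
  intro h0
  rw [(IsFractionRing.injective (MvPolynomial (Fin 4) ℂ) K4).eq_iff' (map_zero _)] at h0
  exact h (by rw [h0, map_zero])

/-- The generic binary cubic. -/
noncomputable def gen : Fin 4 → K4 := fun i => algebraMap (MvPolynomial (Fin 4) ℂ) K4 (X i)

lemma gen_eq : gen = algebraMap (MvPolynomial (Fin 4) ℂ) K4 ∘ X := rfl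

lemma eval_X (c : Fin 4 → ℂ) : (eval c : MvPolynomial (Fin 4) ℂ →+* ℂ) ∘ X = c := by
  funext i
  simp

theorem gen_main : ∃ x y : Fin 3 → K4, ∃ μ : K4, μ ≠ 0 ∧ (∀ i, A x y i = μ * tt gen i) ∧
    Fc x y = 0 := by
  refine ⟨xs gen, ys gen, main gen ?_ ?_ ?_ ?_⟩
  · rw [gen_eq, ← f_D2]
    refine ne_of_eval _ ![-1, -1, -1, 1] ?_
    rw [f_D2, eval_X, D2_pt]
    norm_num
  · rw [gen_eq, ← f_DD]
    refine ne_of_eval _ ![-1, -1, -1, 1] ?_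
    rw [f_DD, eval_X, DD_pt]
    norm_num
  · rw [gen_eq, ← f_tti]
    refine ne_of_eval _ ![-1, -1, -1, 1] ?_
    rw [f_tti, eval_X, tt_pt]
    simp
  · rw [gen_eq, ← f_xs, ← f_ys, ← f_Ai]
    refine ne_of_eval _ ![-1, -1, -1, 1] ?_
    rw [f_Ai, f_xs, f_ys, eval_X, xs_pt, ys_pt, A_pt]
    norm_num

end generic

end Pool.Agent.Helper69.C18.NV
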