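import Pool.Agent.Helper69.C18.NV.Core3

set_option autoImplicit false

namespace Pool.Agent.Helper69.C18.NV

open MvPolynomial

lemma clear (Q : MvPolynomial (Fin 2) ℂ) : ∃ (N : ℕ) (P : MvPolynomial (Fin 4) ℂ),
    algebraMap (MvPolynomial (Fin 4) ℂ) K4 P
      = (tt gen 0) ^ N * aeval ![tt gen 1 / tt gen 0, tt gen 2 / tt gen 0] Q ∧
    ∀ c : Fin 4 → ℂ, tt c 0 ≠ 0 →
      eval c P = (tt c 0) ^ N * eval ![tt c 1 / tt c 0, tt c 2 / tt c 0] Q := by
  have ht : tt gen 0 ≠ 0 := by
    rw [gen_eq, ← f_tti]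
    refine ne_of_eval _ ![-1, -1, -1, 1] ?_
    rw [f_tti, eval_X, tt_pt]
    simp
  have e : ∀ i, algebraMap (MvPolynomial (Fin 4) ℂ) K4 (tt X i) = tt gen i := by
    intro i
    rw [f_tti]
    rfl
  have e2 : ∀ (c : Fin 4 → ℂ) i, eval c (tt X i) = tt c i := by
    intro c i
    rw [f_tti, eval_X]
  induction Q using MvPolynomial.induction_on with
  | C a =>
    refine ⟨0, C a, ?_, ?_⟩
    · rw [pow_zero, one_mul, aeval_C]
      rfl
    · intro c _
      simp
  | add p q hp hq =>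
    obtain ⟨N, P, h1, h2⟩ := hp
    obtain ⟨N', P', h1', h2'⟩ := hq
    refine ⟨N + N', (tt X 0) ^ N' * P + (tt X 0) ^ N * P', ?_, ?_⟩
    · rw [map_add, map_mul, map_mul, map_pow, map_pow, h1, h1', e, map_add]
      ring
    · intro c hc
      rw [map_add, map_mul, map_mul, map_pow, map_pow, h2 c hc, h2' c hc, e2, map_add]
      ring
  | mul_X p i hp =>
    obtain ⟨N, P, h1, h2⟩ := hp
    refine ⟨N + 1, tt X (![1, 2] i) * P, ?_, ?_⟩
    · rw [map_mul, h1, e, map_mul, aeval_X]
      fin_cases i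
      · simp
        field_simp
        ring
      · simp
        field_simp
        ring
    · intro c hc
      rw [map_mul, h2 c hc, e2, map_mul, MvPolynomial.eval_X]
      fin_cases i
      · simp
        field_simp
        try ring
      · simp
        field_simp
        try ring

lemma point (α β : ℂ) (hβ : β ≠ 0) (h1 : 2 * α ≠ β) (h4 : α ≠ 2 * β) :
    ∃ c : Fin 4 → ℂ, tt c 0 ≠ 0 ∧ tt c 1 / tt c 0 = α ∧ tt c 2 / tt c 0 = β := by
  obtain ⟨κ, hκ⟩ : ∃ κ, κ = 2 * α / β := ⟨_, rfl⟩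
  have hα : α = κ * β / 2 := by rw [hκ]; field_simp
  have k1 : κ ≠ 1 := by
    rw [hκ, Ne, div_eq_iff hβ, one_mul]
    exact h1
  have k4 : κ ≠ 4 := by
    intro h
    apply h4
    rw [hα, h]
    ring
  obtain ⟨b, hb⟩ := IsAlgClosed.exists_root
    (Polynomial.C (4 * β) * Polynomial.X ^ 3 + Polynomial.C 0 * Polynomial.X ^ 2
      + Polynomial.C (β * (κ ^ 2 + 2 * κ) + 2 * (1 - κ)) * Polynomial.X
      + Polynomial.C (-(β * (κ - 4)))) (by
        rw [Polynomial.degree_cubic (mul_ne_zero (by norm_num) hβ)]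
        norm_num)
  simp only [Polynomial.IsRoot.def, Polynomial.eval_add, Polynomial.eval_mul, Polynomial.eval_C,
    Polynomial.eval_pow, Polynomial.eval_X] at hb
  have b0 : b ≠ 0 := by
    rintro rfl
    have : β * (κ - 4) = 0 := by linear_combination -hb
    rcases mul_eq_zero.1 this with h | h
    · exact hβ h
    · exact k4 (by linear_combination h)
  have t0 : tt ![κ * b, b, 0, 0] 0
      = -4 * b - 4 * b ^ 4 + κ * b - κ ^ 2 * b ^ 2 - 2 * κ * b ^ 2 := by
    simp [tt, cr, Pv, Cv]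
    ring
  have t1 : tt ![κ * b, b, 0, 0] 1 = κ * b ^ 2 * (1 - κ) := by
    simp [tt, cr, Pv, Cv]
    ring
  have t2 : tt ![κ * b, b, 0, 0] 2 = 2 * b ^ 2 * (1 - κ) := by
    simp [tt, cr, Pv, Cv]
    ring
  have h2 : tt ![κ * b, b, 0, 0] 2 = β * tt ![κ * b, b, 0, 0] 0 := by
    rw [t2, t0]
    linear_combination b * hb
  have h20 : tt ![κ * b, b, 0, 0] 2 ≠ 0 := by
    rw [t2]
    exact mul_ne_zero (mul_ne_zero two_ne_zero (pow_ne_zero _ b0)) (sub_ne_zero.2 k1.symm)
  have h00 : tt ![κ * b, b, 0, 0] 0 ≠ 0 := by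
    intro h
    rw [h, mul_zero] at h2
    exact h20 h2
  refine ⟨![κ * b, b, 0, 0], h00, ?_, ?_⟩
  · rw [div_eq_iff h00, hα, t1]
    rw [t2] at h2
    linear_combination κ / 2 * h2
  · rw [div_eq_iff h00, h2]

theorem N1 : AlgebraicIndependent ℂ ![tt gen 1 / tt gen 0, tt gen 2 / tt gen 0] := by
  rw [algebraicIndependent_iff]
  intro Q hQ
  obtain ⟨N, P, h1, h2⟩ := clear Q
  rw [hQ, mul_zero] at h1
  have hP : P = 0 := by
    rwa [(IsFractionRing.injective (MvPolynomial (Fin 4) ℂ) K4).eq_iff' (map_zero _)] at h1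
  have h3 : ∀ α β : ℂ, β ≠ 0 → 2 * α ≠ β → α ≠ 2 * β → eval ![α, β] Q = 0 := by
    intro α β hβ h1 h4
    obtain ⟨c, c0, c1, c2⟩ := point α β hβ h1 h4
    have := h2 c c0
    rw [hP, map_zero, c1, c2] at this
    exact (mul_eq_zero.1 this.symm).resolve_left (pow_ne_zero _ c0)
  refine funext_set ![Set.range fun n : ℕ => -((n : ℂ) + 1), Set.range fun n : ℕ => (n : ℂ) + 1]
    ?_ ?_
  · intro i
    fin_cases i
    · refine Set.infinite_range_of_injective ?_
      intro a b hab
      have : (a : ℂ) = b := by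
        have h : -((a : ℂ) + 1) = -((b : ℂ) + 1) := hab
        linear_combination -h
      exact_mod_cast this
    · refine Set.infinite_range_of_injective ?_
      intro a b hab
      have : (a : ℂ) = b := by
        have h : ((a : ℂ) + 1) = ((b : ℂ) + 1) := hab
        linear_combination h
      exact_mod_cast this
  · intro x hx
    obtain ⟨n, hn⟩ := hx 0 trivial
    obtain ⟨k, hk⟩ := hx 1 trivial
    have hn' : x 0 = -((n : ℂ) + 1) := hn.symm
    have hk' : x 1 = (k : ℂ) + 1 := hk.symm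
    rw [map_zero, show x = ![x 0, x 1] from by
      funext i
      fin_cases i <;> rfl]
    refine h3 _ _ ?_ ?_ ?_
    · rw [hk']
      exact_mod_cast Nat.succ_ne_zero k
    · rw [hk', hn']
      intro h
      have : ((k + 2 * n + 3 : ℕ) : ℂ) = 0 := by
        push_cast
        linear_combination -h
      exact absurd this (by exact_mod_cast (by omega : k + 2 * n + 3 ≠ 0))
    · rw [hk', hn']
      intro h
      have : ((2 * k + n + 3 : ℕ) : ℂ) = 0 := by
        push_cast
        linear_combination -h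
      exact absurd this (by exact_mod_cast (by omega : 2 * k + n + 3 ≠ 0))

end Pool.Agent.Helper69.C18.NV
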